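import Mathlib
import Pool.Agent.H15.MS6

set_option autoImplicit false

open Polynomial

namespace Pool.Agent.Results.MP_f91407_an.Power

/-- The class `P_d`: degree at most `d`, nonnegative coefficients, all complex zeros real. -/
def InP (d : ℕ) (f : ℝ[X]) : Prop :=
  f.natDegree ≤ d ∧ (∀ j, 0 ≤ f.coeff j) ∧ ∀ z : ℂ, aeval z f = 0 → z.im = 0

open Pool.Agent.H15.MS in
theorem result (F : ℝ → ℝ) (h0 : F 0 = 0) (hF : ∀ x, 0 ≤ x → 0 ≤ F x)
    (h : ∀ (d : ℕ) (f : ℝ[X]), InP d f →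
      InP d (∑ j ∈ Finset.range (d + 1), monomial j (F (f.coeff j)))) :
    ∃ c α : ℝ, 0 < c ∧ 1 ≤ α ∧ ∀ x, 0 ≤ x → F x = c * x ^ α := by
  obtain ⟨c, α, hc, hα, he⟩ := power (F := F) (fun d p hp hd hpos => by
    have hne : p ≠ 0 := by
      rintro rfl
      simpa using hpos 0 (Nat.zero_le _)
    refine (splits_iff _).2 (Or.inr (h d p ⟨hd.le, fun j => ?_,
      ((splits_iff p).1 hp).resolve_left hne⟩).2.2)
    by_cases hj : j ≤ d
    · exact (hpos j hj).le
    · rw [coeff_eq_zero_of_natDegree_lt (by omega)]) fun x hx => hF x hx.le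
  have h1 := (h 0 1 ⟨by simp, fun j => by rw [coeff_one]; split_ifs <;> simp,
    fun z hz => by simp at hz⟩).2.2 Complex.I
  refine ⟨c, α, lt_of_le_of_ne hc ?_, hα, fun x hx => ?_⟩
  · rintro rfl
    simp [he 1 one_pos] at h1
  rcases hx.eq_or_lt with rfl | hx
  · rw [h0, Real.zero_rpow (by linarith), mul_zero]
  · exact he x hx

end Pool.Agent.Results.MP_f91407_an.Power
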